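import Pool.Agent.Lib.MP_c5d73d_lc.F.H30.Star

/-!
# COVV: from the typed covering theorem to `V^B`
-/

universe u v w

open Cardinal

open scoped symmDiff

namespace Pool.Agent.Lib.MP_c5d73d_lc.F.H30

open Pool.Agent.Lib.MP_100a6c_lc
open BName
open H36 (nn om)

variable {B : Type u} [CompleteBooleanAlgebra B]

theorem ext_isNwd (O : BName B) : Ext (fun F => isNwd (VB B) O F) := by
  unfold isNwd
  exact Ext.iInf fun x => Ext.iInf fun a => (Ext.const _).himp
    (Ext.iSup fun y => (Ext.const _).inf (ext_VBmem_right y).compl)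

theorem ext_nbhd_compl (O a : BName B) :
    Ext (fun F => nbhd (VB B) O a fun y => ((VB B).mem y F)ᶜ) := by
  unfold nbhd
  exact Ext.iInf fun y => (Ext.const _).himp (ext_VBmem_right y).compl

theorem ext_isClosed (O : BName B) : Ext (fun F => isClosed (VB B) O F) := by
  unfold isClosed
  exact (ext_sub_left O).inf (Ext.iInf fun x => ((Ext.const _).inf (ext_VBmem_right x).compl).himp
    (Ext.iSup fun a => (Ext.const _).inf (ext_nbhd_compl O a)))

theorem ext_isPSet (w O : BName B) : Ext (fun F => isPSet (VB B) w O F) := by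
  unfold isPSet
  refine (ext_isClosed O).inf (Ext.iInf fun E => ((Ext.const _).inf
    (Ext.iInf fun G => (Ext.const _).himp ((Ext.const _).inf (ext_sub_left G)))).himp
    (Ext.iInf fun x => (ext_VBmem_right x).himp (Ext.const _)))

theorem covv (hR : RealsStatement.{u}) (hU : UltraStatement.{u}) (hP : PsetStatement.{u})
    (hN : NwdStatement.{u}) : CovvStatement.{u} := by
  intro B _ h
  refine top_unique ?_
  unfold Cov
  refine le_iSup_of_le (check om) (le_iSup_of_le (Star B) (le_iSup_of_le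
    (mk {J : Rl B → B // TP J} (fun J => FJ J.1) fun _ => ⊤) ?_))
  obtain ⟨-, -, -, -, -, hOm, -⟩ := hR B
  rw [hOm, beq_refl, (hU B).2.2.2.2, top_inf_eq, top_inf_eq]
  simp only [VB_mem]
  refine le_inf ?_ ?_
  · rw [le_iInf_mem ((ext_isPSet (check om) (Star B)).inf (ext_isNwd (Star B)))]
    rintro ⟨J, hJ⟩
    change ⊤ ⊓ ⊤ ≤ isPSet (VB B) (check om) (Star B) (FJ J) ⊓ isNwd (VB B) (Star B) (FJ J)
    rw [hP B J hJ, hN B J hJ]
  · rw [iInf_Star (Ext.iSup fun F => (Ext.const _).inf (ext_mem_left F))]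
    refine le_iInf fun x => ?_
    obtain ⟨J, hJ, hJx⟩ := h x.1 x.2
    refine le_iSup_of_le (FJ J) (le_inf ?_ ?_)
    · rw [mem_mk]
      exact le_iSup_of_le ⟨J, hJ⟩ (by rw [beq_refl, top_inf_eq])
    · rw [mem_FJ hU J x.2]
      exact le_iInf fun a => by rw [hJx a, compl_bot]

end Pool.Agent.Lib.MP_c5d73d_lc.F.H30
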