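import Pool.Agent.Lib.MP_c5d73d_lc.F.IfaceT

/-!
# Basic inequalities for `ssub`, `infi`, ultrafilters
-/

universe u v w

open scoped symmDiff

namespace Pool.Agent.Lib.MP_c5d73d_lc.F.H30

open Pool.Agent.Lib.MP_100a6c_lc

variable {B : Type u} [CompleteBooleanAlgebra B]

theorem ssub_of_pointwise {a b : Rl B} {Γ : B} (h : ∀ n, Γ ⊓ a n ≤ b n) : Γ ≤ ssub a b :=
  le_iSup_of_le 0 (le_iInf fun n => by rw [le_himp_iff]; exact h _)

theorem ssub_of_le {a b : Rl B} (h : a ≤ b) : ssub a b = ⊤ :=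
  top_unique (ssub_of_pointwise fun n => inf_le_right.trans (h n))

theorem ssub_refl (a : Rl B) : ssub a a = ⊤ := ssub_of_le le_rfl

/-- General rule with two premisses. -/
theorem ssub_comb {a b a' b' c d : Rl B}
    (h : ∀ n, (a n ⇨ b n) ⊓ (a' n ⇨ b' n) ⊓ c n ≤ d n) : ssub a b ⊓ ssub a' b' ≤ ssub c d := by
  unfold ssub
  rw [iSup_inf_iSup]
  refine iSup_le fun N => ?_
  obtain ⟨N, M⟩ := N
  refine le_iSup_of_le (N + M) (le_iInf fun n => ?_)
  rw [le_himp_iff]
  refine le_trans ?_ (h (n + (N + M)))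
  refine le_inf (le_inf ?_ ?_) inf_le_right
  · refine inf_le_left.trans (inf_le_left.trans ((iInf_le _ (n + M)).trans (le_of_eq ?_)))
    simp only
    congr 2 <;> omega
  · refine inf_le_left.trans (inf_le_right.trans ((iInf_le _ (n + N)).trans (le_of_eq ?_)))
    simp only
    congr 2 <;> omega

theorem ssub_mono {a b c d : Rl B} (h : c ≤ a) (h' : b ≤ d) : ssub a b ≤ ssub c d := by
  refine iSup_mono fun N => iInf_mono fun n => ?_
  exact himp_le_himp (h _) (h' _)

theorem ssub_trans (a b c : Rl B) : ssub a b ⊓ ssub b c ≤ ssub a c :=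
  ssub_comb fun n => by
    refine le_trans (le_inf (inf_le_left.trans inf_le_right) ?_) himp_inf_le
    exact le_trans (le_inf (inf_le_left.trans inf_le_left) inf_le_right) himp_inf_le

theorem ssub_inf (a b c : Rl B) : ssub a b ⊓ ssub a c ≤ ssub a (b ⊓ c) :=
  ssub_comb fun n => le_inf
    (le_trans (le_inf (inf_le_left.trans inf_le_left) inf_le_right) himp_inf_le)
    (le_trans (le_inf (inf_le_left.trans inf_le_right) inf_le_right) himp_inf_le)

theorem ssub_inf_inf (a b a' b' : Rl B) : ssub a b ⊓ ssub a' b' ≤ ssub (a ⊓ a') (b ⊓ b') :=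
  ssub_comb fun n => le_inf
    (le_trans (le_inf (inf_le_left.trans inf_le_left) (inf_le_right.trans inf_le_left))
      himp_inf_le)
    (le_trans (le_inf (inf_le_left.trans inf_le_right) (inf_le_right.trans inf_le_right))
      himp_inf_le)

theorem ssub_compl (a b : Rl B) : ssub a b ≤ ssub bᶜ aᶜ := by
  refine iSup_mono fun N => iInf_mono fun n => ?_
  simp only [Pi.compl_apply]
  rw [compl_himp_compl]

theorem ssub_top_bot : ssub (⊤ : Rl B) ⊥ = ⊥ := by
  unfold ssub
  refine le_antisymm (iSup_le fun N => (iInf_le _ 0).trans ?_) bot_le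
  simp

/-- Equality gives `ssub`. -/
theorem eq_le_ssub (a b : Rl B) : (⨅ n, a n ⇔ b n) ≤ ssub a b :=
  ssub_of_pointwise fun n => by
    refine (inf_le_inf_right _ (iInf_le _ n)).trans ?_
    rw [bihimp]
    exact le_trans (le_inf (inf_le_left.trans inf_le_right) inf_le_right) himp_inf_le

theorem eq_le_ssub' (a b : Rl B) : (⨅ n, a n ⇔ b n) ≤ ssub b a :=
  ssub_of_pointwise fun n => by
    refine (inf_le_inf_right _ (iInf_le _ n)).trans ?_
    rw [bihimp]
    exact le_trans (le_inf (inf_le_left.trans inf_le_left) inf_le_right) himp_inf_le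

theorem infi_eq (a : Rl B) : infi a = (ssub a ⊥)ᶜ := by
  unfold infi ssub
  rw [compl_iSup]
  refine iInf_congr fun N => ?_
  rw [compl_iInf]
  exact iSup_congr fun n => by simp

theorem ssub_inf_infi (a b : Rl B) : ssub a b ⊓ infi a ≤ infi b := by
  rw [infi_eq, infi_eq, le_compl_iff_disjoint_right, disjoint_iff_inf_le, inf_right_comm]
  refine le_trans (inf_le_inf_right _ (ssub_trans a b ⊥)) ?_
  rw [inf_compl_self]

section NU

variable {x : Rl B → B}

theorem _root_.Pool.Agent.Lib.MP_c5d73d_lc.F.NU.mono_of_le (hx : NU x) {a b : Rl B} (h : a ≤ b) :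
    x a ≤ x b := by
  have := hx.mono a b
  rwa [ssub_of_le h, top_inf_eq] at this

theorem _root_.Pool.Agent.Lib.MP_c5d73d_lc.F.NU.top (hx : NU x) : x ⊤ = ⊤ := by
  have h1 : x ⊤ᶜ = (x ⊤)ᶜ := hx.compl ⊤
  have h2 : x ⊤ᶜ ≤ x ⊤ := hx.mono_of_le le_top
  rw [h1] at h2
  have : (x ⊤)ᶜ ≤ ⊥ := by
    rw [← compl_inf_self (x ⊤)]
    exact le_inf le_rfl h2
  rw [← compl_compl (x ⊤), le_bot_iff.1 this, compl_bot]

theorem _root_.Pool.Agent.Lib.MP_c5d73d_lc.F.NU.bot (hx : NU x) : x ⊥ = ⊥ := by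
  have := hx.compl ⊤
  rwa [compl_top, hx.top, compl_top] at this

theorem _root_.Pool.Agent.Lib.MP_c5d73d_lc.F.NU.sup (hx : NU x) (a b : Rl B) :
    x (a ⊔ b) = x a ⊔ x b := by
  have h1 := hx.compl (a ⊔ b)
  rw [compl_sup, hx.inf, hx.compl, hx.compl, ← compl_sup] at h1
  exact (compl_injective h1).symm

end NU

end Pool.Agent.Lib.MP_c5d73d_lc.F.H30
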