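import Pool.Agent.Lib.MP_c5d73d_lc.F.IfaceW
import Pool.Agent.Lib.MP_c5d73d_lc.F.H30.Sub

/-!
# CPT: compactness of `ω*`
-/

universe u v w

open scoped symmDiff

namespace Pool.Agent.Lib.MP_c5d73d_lc.F.H30

open Pool.Agent.Lib.MP_100a6c_lc

variable {B : Type u} [CompleteBooleanAlgebra B]

/-- The Boolean value of: all ultrafilters containing `a` are in `G`. -/
noncomputable def gg (G : (Rl B → B) → B) (a : Rl B) : B :=
  ⨅ y : {y : Rl B → B // NU y}, (y.1 a ⇨ G y.1)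

theorem gg_sup (G : (Rl B → B) → B) (a a' : Rl B) : gg G a ⊓ gg G a' ≤ gg G (a ⊔ a') := by
  refine le_iInf fun y => ?_
  rw [y.2.sup, le_himp_iff, inf_sup_left]
  refine sup_le ?_ ?_
  · exact le_trans (inf_le_inf_right _ (inf_le_left.trans (iInf_le _ y))) himp_inf_le
  · exact le_trans (inf_le_inf_right _ (inf_le_right.trans (iInf_le _ y))) himp_inf_le

theorem gg_mono (G : (Rl B → B) → B) (a a' : Rl B) : ssub a' a ⊓ gg G a ≤ gg G a' := by
  refine le_iInf fun y => ?_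
  rw [le_himp_iff]
  have h1 : ssub a' a ⊓ gg G a ⊓ y.1 a' ≤ y.1 a :=
    le_trans (le_inf (inf_le_left.trans inf_le_left) inf_le_right) (y.2.mono a' a)
  exact le_trans (le_inf (inf_le_left.trans (inf_le_right.trans (iInf_le _ y))) h1) himp_inf_le

theorem gg_bot (G : (Rl B → B) → B) : gg G ⊥ = ⊤ :=
  top_unique (le_iInf fun y => by rw [y.2.bot, bot_himp])

/-- The filter used in CPT. -/
noncomputable def FF (c : B) (J : Rl B → B) (G : (Rl B → B) → B) (t : Rl B) : B :=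
  (c ⊓ ⨆ p : Rl B × Rl B, J p.1 ⊓ gg G p.2 ⊓ ssub (p.1ᶜ ⊓ p.2ᶜ) t) ⊔ (cᶜ ⊓ ssub ⊤ t)

theorem FF_left (c : B) (J : Rl B → B) (G : (Rl B → B) → B) (t : Rl B) :
    c ⊓ FF c J G t ≤ ⨆ p : Rl B × Rl B, J p.1 ⊓ gg G p.2 ⊓ ssub (p.1ᶜ ⊓ p.2ᶜ) t := by
  unfold FF
  rw [inf_sup_left]
  refine sup_le (inf_le_right.trans inf_le_right) ?_
  rw [← inf_assoc, inf_compl_self, bot_inf_eq]
  exact bot_le

theorem FF_right (c : B) (J : Rl B → B) (G : (Rl B → B) → B) (t : Rl B) :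
    cᶜ ⊓ FF c J G t ≤ ssub ⊤ t := by
  unfold FF
  rw [inf_sup_left]
  refine sup_le ?_ (inf_le_right.trans inf_le_right)
  rw [← inf_assoc, compl_inf_self, bot_inf_eq]
  exact bot_le

theorem FF_inf {J : Rl B → B} (G : (Rl B → B) → B) (hJs : ∀ a b, J a ⊓ J b ≤ J (a ⊔ b))
    (a b : Rl B) :
    (⨆ p : Rl B × Rl B, J p.1 ⊓ gg G p.2 ⊓ ssub (p.1ᶜ ⊓ p.2ᶜ) a) ⊓
      (⨆ p : Rl B × Rl B, J p.1 ⊓ gg G p.2 ⊓ ssub (p.1ᶜ ⊓ p.2ᶜ) b) ≤
      ⨆ p : Rl B × Rl B, J p.1 ⊓ gg G p.2 ⊓ ssub (p.1ᶜ ⊓ p.2ᶜ) (a ⊓ b) := by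
  rw [iSup_inf_iSup]
  refine iSup_le fun pq => ?_
  obtain ⟨p, q⟩ := pq
  refine le_iSup_of_le (p.1 ⊔ q.1, p.2 ⊔ q.2) (le_inf (le_inf ?_ ?_) ?_)
  · exact le_trans (le_inf (inf_le_left.trans (inf_le_left.trans inf_le_left))
      (inf_le_right.trans (inf_le_left.trans inf_le_left))) (hJs _ _)
  · exact le_trans (le_inf (inf_le_left.trans (inf_le_left.trans inf_le_right))
      (inf_le_right.trans (inf_le_left.trans inf_le_right))) (gg_sup G _ _)
  · refine le_trans (le_inf (inf_le_left.trans inf_le_right)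
      (inf_le_right.trans inf_le_right)) ?_
    refine (ssub_inf_inf _ _ _ _).trans (ssub_mono ?_ le_rfl)
    simp only [compl_sup]
    rw [inf_inf_inf_comm]

theorem cpt (hE : ExuStatement.{u}) (hM : MixStatement.{u, 0}) : CptStatement.{u} := by
  intro B _ Γ J G hJ0 hJs hJm hG h1 h2
  set c : B := Γ ⊓ (⨆ b, J b ⊓ gg G bᶜ)ᶜ with hc
  have hcb : ∀ b, c ⊓ (J b ⊓ gg G bᶜ) = ⊥ := by
    intro b
    rw [eq_bot_iff, hc]
    refine le_trans (inf_le_inf (inf_le_right) (le_iSup (fun b => J b ⊓ gg G bᶜ) b)) ?_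
    rw [compl_inf_self]
  have hF1 : FF c J G ⊥ = ⊥ := by
    unfold FF
    rw [ssub_top_bot, inf_bot_eq, sup_bot_eq, eq_bot_iff, inf_iSup_eq]
    refine iSup_le fun p => ?_
    have h3 : ssub (p.1ᶜ ⊓ p.2ᶜ) ⊥ ≤ ssub p.1ᶜ p.2 := by
      have : ssub (p.1ᶜ ⊓ p.2ᶜ) ⊥ ⊓ ssub (p.1ᶜ ⊓ p.2ᶜ) ⊥ ≤ ssub p.1ᶜ p.2 := by
        refine ssub_comb fun n => ?_
        simp only [Pi.inf_apply, Pi.compl_apply, Pi.bot_apply, himp_bot, inf_idem, compl_inf,
          compl_compl]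
        rw [inf_comm, inf_sup_left, compl_inf_self, bot_sup_eq]
        exact inf_le_right
      rwa [inf_idem] at this
    rw [← hcb p.1]
    refine le_inf inf_le_left (le_inf (inf_le_right.trans (inf_le_left.trans inf_le_left)) ?_)
    refine le_trans (le_inf (inf_le_right.trans (inf_le_right.trans h3))
      (inf_le_right.trans (inf_le_left.trans inf_le_right))) (gg_mono G p.2 p.1ᶜ)
  have hF2 : FF c J G ⊤ = ⊤ := by
    refine top_unique ?_
    unfold FF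
    rw [ssub_refl, inf_top_eq]
    rw [← sup_compl_eq_top (x := c)]
    refine sup_le_sup_right (le_inf le_rfl (le_iSup_of_le (⊥, ⊥) ?_)) _
    simp only
    rw [hJ0, gg_bot, ssub_of_le le_top]
    simp
  have hF3 : ∀ a b, FF c J G a ⊓ FF c J G b ≤ FF c J G (a ⊓ b) := by
    intro a b
    have e1 : c ⊓ (FF c J G a ⊓ FF c J G b) ≤ FF c J G (a ⊓ b) := by
      refine le_sup_of_le_left (le_inf inf_le_left ?_)
      refine le_trans (le_inf ?_ ?_) (FF_inf G hJs a b)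
      · exact le_trans (inf_le_inf_left _ inf_le_left) (FF_left c J G a)
      · exact le_trans (inf_le_inf_left _ inf_le_right) (FF_left c J G b)
    have e2 : cᶜ ⊓ (FF c J G a ⊓ FF c J G b) ≤ FF c J G (a ⊓ b) := by
      refine le_sup_of_le_right (le_inf inf_le_left ?_)
      refine le_trans (le_inf ?_ ?_) (ssub_inf ⊤ a b)
      · exact le_trans (inf_le_inf_left _ inf_le_left) (FF_right c J G a)
      · exact le_trans (inf_le_inf_left _ inf_le_right) (FF_right c J G b)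
    calc FF c J G a ⊓ FF c J G b = (c ⊔ cᶜ) ⊓ (FF c J G a ⊓ FF c J G b) := by
          rw [sup_compl_eq_top, top_inf_eq]
      _ ≤ _ := by rw [inf_sup_right]; exact sup_le e1 e2
  have hF4 : ∀ a b, ssub a b ⊓ FF c J G a ≤ FF c J G b := by
    intro a b
    unfold FF
    rw [inf_sup_left]
    refine sup_le_sup ?_ ?_
    · rw [inf_left_comm, inf_iSup_eq]
      refine inf_le_inf_left _ (iSup_mono fun p => ?_)
      refine le_inf (inf_le_right.trans inf_le_left) ?_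
      rw [inf_comm (ssub a b)]
      exact le_trans (inf_le_inf_right _ inf_le_right) (ssub_trans _ a b)
    · rw [inf_left_comm, inf_comm (ssub a b)]
      exact inf_le_inf_left _ (ssub_trans _ a b)

  obtain ⟨x, hx, hFx⟩ := hE B (FF c J G) hF1 hF2 hF3 hF4
  have hc1 : c ≤ ⨅ a, (J a ⊓ x a)ᶜ := by
    refine le_iInf fun a => ?_
    rw [le_compl_iff_disjoint_right, disjoint_iff_inf_le]
    have h3 : c ⊓ J a ≤ (x a)ᶜ := by
      rw [← hx.compl]
      refine le_trans ?_ (hFx aᶜ)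
      unfold FF
      refine le_sup_of_le_left (inf_le_inf_left _ (le_iSup_of_le (a, ⊥) ?_))
      simp only
      rw [gg_bot, inf_top_eq, compl_bot, inf_top_eq, ssub_refl, inf_top_eq]
    rw [← inf_assoc]
    refine (inf_le_inf_right _ h3).trans ?_
    rw [compl_inf_self]
  have hc2 : c ≤ G x := (le_inf inf_le_left hc1).trans (h1 x hx)
  have hc3 : c ≤ ⨆ a, x a ⊓ gg G a := (le_inf inf_le_left hc2).trans (h2 x hx)
  have hcb0 : c = ⊥ := by
    rw [eq_bot_iff]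
    refine (le_inf le_rfl hc3).trans ?_
    rw [inf_iSup_eq]
    refine iSup_le fun a => ?_
    have h3 : c ⊓ gg G a ≤ (x a)ᶜ := by
      rw [← hx.compl]
      refine le_trans ?_ (hFx aᶜ)
      unfold FF
      refine le_sup_of_le_left (inf_le_inf_left _ (le_iSup_of_le (⊥, a) ?_))
      simp only
      rw [hJ0, top_inf_eq, compl_bot, top_inf_eq, ssub_refl, inf_top_eq]
    have h4 : c ⊓ (x a ⊓ gg G a) ≤ (x a)ᶜ :=
      le_trans (le_inf inf_le_left (inf_le_right.trans inf_le_right)) h3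
    have h5 : c ⊓ (x a ⊓ gg G a) ≤ x a := inf_le_right.trans inf_le_left
    exact (le_inf h5 h4).trans (le_of_eq (inf_compl_self _))
  have hΓ : Γ ≤ ⨆ b, J b ⊓ gg G bᶜ := by
    rw [hc, ← sdiff_eq, sdiff_eq_bot_iff] at hcb0
    exact hcb0
  obtain ⟨b, -, hb⟩ := hM B ℕ Set.univ ⟨⊥, trivial⟩ (fun _ _ _ _ _ _ => trivial)
    (fun b => J b ⊓ gg G bᶜ) (fun a b => by
      refine le_inf ?_ ?_
      · exact le_trans (le_inf (inf_le_left.trans (eq_le_ssub' a b))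
          (inf_le_right.trans inf_le_left)) (hJm b a)
      · refine le_trans (le_inf (inf_le_left.trans ((eq_le_ssub a b).trans (ssub_compl a b)))
          (inf_le_right.trans inf_le_right)) (gg_mono G aᶜ bᶜ))
  exact ⟨b, hΓ.trans (iSup_le fun b' => hb b' trivial)⟩

end Pool.Agent.Lib.MP_c5d73d_lc.F.H30
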