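import Pool.Agent.Lib.MP_c5d73d_lc.F.H30.Star

/-!
# PSET: the closed set of the ultrafilters missing a tall P-ideal is a P-set
-/

universe u v w

open Cardinal

open scoped symmDiff

namespace Pool.Agent.Lib.MP_c5d73d_lc.F.H30

open Pool.Agent.Lib.MP_100a6c_lc
open BName
open H36 (nn om)

variable {B : Type u} [CompleteBooleanAlgebra B]

theorem closed_FJ (hU : UltraStatement.{u}) (J : Rl B → B) :
    isClosed (VB B) (Star B) (FJ J) = ⊤ := by
  unfold isClosed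
  rw [FJ_sub, top_inf_eq]
  simp only [VB_mem]
  have hE : Ext (fun y : BName B => (bmem y (FJ J))ᶜ) := (ext_mem_left (FJ J)).compl
  have : (⨅ x, bmem x (Star B) ⊓ (bmem x (FJ J))ᶜ ⇨ ⨆ a, bmem a x ⊓
      nbhd (VB B) (Star B) a fun y => (bmem y (FJ J))ᶜ) =
      ⨅ x, bmem x (Star B) ⇨ ((bmem x (FJ J))ᶜ ⇨ ⨆ a, bmem a x ⊓
      nbhd (VB B) (Star B) a fun y => (bmem y (FJ J))ᶜ) := by
    refine iInf_congr fun y => ?_
    rw [himp_himp]
  rw [this, iInf_Star (hE.himp (ext_iSup_nbhd (Star B) _))]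
  refine top_unique (le_iInf fun x => ?_)
  rw [le_himp_iff, top_inf_eq, iSup_nbhd hU hE x.1, mem_FJ hU J x.2, compl_iInf]
  refine iSup_le fun a => ?_
  rw [compl_compl]
  refine le_iSup_of_le a (le_inf inf_le_right (le_iInf fun y => ?_))
  rw [mem_FJ hU J y.2, compl_iInf, le_himp_iff]
  refine le_iSup_of_le a ?_
  rw [compl_compl]
  exact le_inf (inf_le_left.trans inf_le_left) inf_le_right

theorem J_cut {J : Rl B → B} (hJ : TP J) {Γ : B} {b : Rl B} (h : Γ ≤ J b) :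
    J (fun n => b n ⊓ Γ) = ⊤ := by
  refine top_unique ?_
  rw [← sup_compl_eq_top (x := Γ)]
  refine sup_le ?_ ?_
  · refine le_trans (le_inf ?_ h) (hJ.mono (fun n => b n ⊓ Γ) b)
    rw [ssub_of_le (fun n => inf_le_left)]
    exact le_top
  · have := hJ.mono (fun n => b n ⊓ Γ) ⊥
    rw [hJ.bot, inf_top_eq] at this
    refine le_trans (ssub_of_pointwise fun n => ?_) this
    rw [inf_left_comm, compl_inf_self, inf_bot_eq]
    exact bot_le

theorem pset_aux (hU : UltraStatement.{u}) (hC : CptStatement.{u}) {J : Rl B → B} (hJ : TP J)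
    {Γ : B} {E : BName B} (t : ULift.{u} ℕ → BName B) (ht : Enum Γ E t)
    (h : Γ ≤ ⨅ G, (VB B).mem G E ⇨ isOpen (VB B) (Star B) G ⊓ (VB B).sub (FJ J) G) :
    ∃ b : Rl B, J b = ⊤ ∧ ∀ y : Rl B → B, NU y → ∀ G : BName B,
      Γ ⊓ y bᶜ ⊓ bmem G E ≤ bmem (un y) G := by
  have hcpt : ∀ n : ULift.{u} ℕ, ∃ b : Rl B, Γ ≤ J b ⊓ ⨅ y : {y : Rl B → B // NU y},
      (y.1 bᶜ ⇨ ((bmem (t n) E)ᶜ ⊔ bmem (un y.1) (t n))) := by
    intro n
    have h1 : Γ ⊓ bmem (t n) E ≤ isOpen (VB B) (Star B) (t n) :=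
      (iInf_himp_apply h (t n) inf_le_left inf_le_right).trans inf_le_left
    have h2 : Γ ⊓ bmem (t n) E ≤ (VB B).sub (FJ J) (t n) :=
      (iInf_himp_apply h (t n) inf_le_left inf_le_right).trans inf_le_right
    refine hC B Γ J (fun y => (bmem (t n) E)ᶜ ⊔ bmem (un y) (t n)) hJ.bot hJ.sup hJ.mono ?_ ?_ ?_
    · intro x y
      rw [inf_sup_left]
      refine sup_le_sup inf_le_right ?_
      exact (inf_le_inf_right _ (eq_le_beq_un x y)).trans (bmem_congr_left _ _ _)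
    · intro x hx
      rw [← mem_FJ hU J hx]
      have h3 : bmem (t n) E ⊓ (Γ ⊓ bmem (un x) (FJ J)) ≤ bmem (un x) (t n) :=
        sub_apply h2 (un x) (le_inf (inf_le_right.trans inf_le_left) inf_le_left)
          (inf_le_right.trans inf_le_right)
      calc Γ ⊓ bmem (un x) (FJ J)
          = (bmem (t n) E)ᶜ ⊓ (Γ ⊓ bmem (un x) (FJ J)) ⊔
            bmem (t n) E ⊓ (Γ ⊓ bmem (un x) (FJ J)) := by
            rw [← inf_sup_right, compl_sup_eq_top, top_inf_eq]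
        _ ≤ _ := sup_le_sup inf_le_left h3
    · intro x hx
      rw [inf_sup_left]
      refine sup_le ?_ ?_
      · refine le_iSup_of_le ⊤ (le_inf ?_ (le_iInf fun y => ?_))
        · rw [hx.top]; exact le_top
        · rw [le_himp_iff]
          exact le_sup_of_le_left (inf_le_left.trans inf_le_right)
      · have h4 : bmem (t n) E ⊓ (Γ ⊓ bmem (un x) (t n)) ≤
            ⨆ a : Rl B, x a ⊓ ⨅ y : {y : Rl B → B // NU y}, (y.1 a ⇨ bmem (un y.1) (t n)) := by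
          rw [← iSup_nbhd hU (ext_mem_left (t n)) x]
          have h5 : bmem (t n) E ⊓ (Γ ⊓ bmem (un x) (t n)) ≤ isOpen (VB B) (Star B) (t n) :=
            le_trans (le_inf (inf_le_right.trans inf_le_left) inf_le_left) h1
          exact iInf_himp_apply (h5.trans inf_le_right) (un x) le_rfl
            (inf_le_right.trans inf_le_right)
        have h6 : (bmem (t n) E)ᶜ ⊓ (Γ ⊓ bmem (un x) (t n)) ≤ ⨆ a : Rl B, x a ⊓
            ⨅ y : {y : Rl B → B // NU y}, (y.1 a ⇨ (bmem (t n) E)ᶜ ⊔ bmem (un y.1) (t n)) := by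
          refine le_iSup_of_le ⊤ (le_inf ?_ (le_iInf fun y => ?_))
          · rw [hx.top]; exact le_top
          · rw [le_himp_iff]
            exact le_sup_of_le_left (inf_le_left.trans inf_le_left)
        calc Γ ⊓ bmem (un x) (t n)
            = (bmem (t n) E)ᶜ ⊓ (Γ ⊓ bmem (un x) (t n)) ⊔
              bmem (t n) E ⊓ (Γ ⊓ bmem (un x) (t n)) := by
              rw [← inf_sup_right, compl_sup_eq_top, top_inf_eq]
          _ ≤ _ := sup_le h6 (h4.trans (iSup_mono fun a => inf_le_inf_left _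
              (iInf_mono fun y => himp_le_himp_left le_sup_right)))
  choose b hb using hcpt
  obtain ⟨b', hb', hbs⟩ := hJ.pp (fun n => fun k => b ⟨n⟩ k ⊓ Γ) fun n =>
    J_cut hJ ((hb ⟨n⟩).trans inf_le_left)
  refine ⟨b', hb', fun y hy G => ?_⟩
  have h1 : Γ ⊓ y b'ᶜ ⊓ bmem G E ≤ ⨆ n, beq G (t n) :=
    le_trans (le_inf (inf_le_left.trans inf_le_left) inf_le_right) (ht G)
  refine (le_inf le_rfl h1).trans ?_
  rw [inf_iSup_eq]
  refine iSup_le fun n => ?_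
  have h2 : Γ ⊓ y b'ᶜ ≤ y (b n)ᶜ := by
    have h3 : y b'ᶜ ≤ y (fun k => b n k ⊓ Γ)ᶜ := by
      have := hy.mono b'ᶜ (fun k => b n k ⊓ Γ)ᶜ
      have h4 : ssub b'ᶜ (fun k => b n k ⊓ Γ)ᶜ = ⊤ :=
        top_unique ((hbs n.down).ge.trans (ssub_compl _ _))
      rwa [h4, top_inf_eq] at this
    refine le_trans (inf_le_inf_left _ h3) ?_
    refine le_trans (inf_le_inf_right _ ?_) (hy.mono (fun k => b n k ⊓ Γ)ᶜ (b n)ᶜ)
    refine ssub_of_pointwise fun k => ?_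
    simp only [Pi.compl_apply, compl_inf]
    rw [inf_sup_left, inf_compl_self, sup_bot_eq]
    exact inf_le_right
  have h5 : Γ ⊓ y b'ᶜ ≤ (bmem (t n) E)ᶜ ⊔ bmem (un y) (t n) := by
    have h6 : Γ ≤ y (b n)ᶜ ⇨ ((bmem (t n) E)ᶜ ⊔ bmem (un y) (t n)) :=
      (hb n).trans (inf_le_right.trans (iInf_le (fun y : {y : Rl B → B // NU y} =>
        (y.1 (b n)ᶜ ⇨ ((bmem (t n) E)ᶜ ⊔ bmem (un y.1) (t n)))) ⟨y, hy⟩))
    exact le_trans (le_inf (inf_le_left.trans h6) h2) himp_inf_le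
  have h7 : Γ ⊓ y b'ᶜ ⊓ bmem G E ⊓ beq G (t n) ≤ bmem (t n) E :=
    (ext_mem_left E).of_le (x := G) inf_le_right (inf_le_left.trans inf_le_right)
  have h8 : Γ ⊓ y b'ᶜ ⊓ bmem G E ⊓ beq G (t n) ≤ bmem (un y) (t n) := by
    have h9 : Γ ⊓ y b'ᶜ ⊓ bmem G E ⊓ beq G (t n) ≤
        ((bmem (t n) E)ᶜ ⊔ bmem (un y) (t n)) ⊓ bmem (t n) E :=
      le_inf ((inf_le_left.trans inf_le_left).trans h5) h7
    refine h9.trans ?_
    rw [inf_sup_right, compl_inf_self, bot_sup_eq]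
    exact inf_le_left
  exact (ext_mem_right (un y)).of_le' (x := t n) inf_le_right h8

theorem pset (hU : UltraStatement.{u}) (hC : CptStatement.{u}) : PsetStatement.{u} := by
  intro B _ J hJ
  unfold isPSet
  rw [closed_FJ hU J, top_inf_eq]
  refine top_unique (le_iInf fun E => ?_)
  rw [le_himp_iff, top_inf_eq]
  set Γ := (VB B).leCard E (check om) ⊓
    (⨅ G, (VB B).mem G E ⇨ isOpen (VB B) (Star B) G ⊓ (VB B).sub (FJ J) G) with hΓ
  obtain ⟨t, ht⟩ := exists_enum_type (Γ := Γ) (x := E) (c := ℵ₀) (K := ULift.{u} ℕ) (by simp)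
    (by
      have : (ℵ₀ : Cardinal.{u}).ord.toZFSet = om := by rw [Cardinal.ord_aleph0]; rfl
      rw [this]
      exact inf_le_left)
  obtain ⟨b, hb, hbG⟩ := pset_aux hU hC hJ t ht inf_le_right
  have hExt : Ext (fun y : BName B => ⨅ G, bmem G E ⇨ bmem y G) :=
    Ext.iInf fun G => (Ext.const _).himp (ext_mem_left G)
  simp only [VB_mem]
  rw [le_iInf_mem (ext_iSup_nbhd (Star B) _)]
  rintro ⟨x, hx⟩
  change Γ ⊓ (⨅ a, (J a ⊓ x a)ᶜ) ≤ ⨆ a, bmem a (un x) ⊓ nbhd (VB B) (Star B) a _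
  rw [iSup_nbhd hU hExt x]
  refine le_iSup_of_le bᶜ (le_inf ?_ (le_iInf fun y => ?_))
  · refine inf_le_right.trans ((iInf_le _ b).trans ?_)
    rw [hb, top_inf_eq, hx.compl]
  · rw [le_himp_iff]
    refine le_iInf fun G => ?_
    rw [le_himp_iff]
    exact le_trans (inf_le_inf_right _ (inf_le_inf_right _ inf_le_left)) (hbG y.1 y.2 G)

end Pool.Agent.Lib.MP_c5d73d_lc.F.H30
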