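import Pool.Agent.Lib.MP_c5d73d_lc.F.IfaceW
import Pool.Agent.Lib.MP_c5d73d_lc.F.H30.Sub

/-!
# Quantifiers over `ω*` in `V^B`
-/

universe u v w

open scoped symmDiff

namespace Pool.Agent.Lib.MP_c5d73d_lc.F.H30

open Pool.Agent.Lib.MP_100a6c_lc
open BName
open H36 (nn om)

variable {B : Type u} [CompleteBooleanAlgebra B]

theorem mem_Star (y : BName B) : bmem y (Star B) = ⨆ x : {x : Rl B → B // NU x}, beq y (un x.1) := by
  rw [bmem_def]
  exact iSup_congr fun x => top_inf_eq _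

theorem iInf_Star {φ : BName B → B} (h : Ext φ) :
    (⨅ y, bmem y (Star B) ⇨ φ y) = ⨅ x : {x : Rl B → B // NU x}, φ (un x.1) := by
  rw [iInf_mem h]
  exact iInf_congr fun x => top_himp

theorem un_mem_Star {x : Rl B → B} (hx : NU x) : bmem (un x) (Star B) = ⊤ := by
  rw [mem_Star]
  exact top_unique (le_iSup_of_le ⟨x, hx⟩ (by rw [beq_refl]))

theorem eq_le_beq_rn (hR : RealsStatement.{u}) (a b : Rl B) :
    (⨅ n, a n ⇔ b n) ≤ beq (rn a) (rn b) := ((hR B).2.1 a b).ge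

theorem eq_le_beq_un (x y : Rl B → B) : (⨅ a, x a ⇔ y a) ≤ beq (un x) (un y) := by
  rw [beq_def]
  refine le_inf (le_iInf fun a => ?_) (le_iInf fun a => ?_)
  · rw [le_himp_iff]
    refine le_iSup_of_le a (le_inf ?_ ?_)
    · refine (inf_le_inf_right _ (iInf_le _ a)).trans ?_
      rw [bihimp]
      exact le_trans (le_inf (inf_le_left.trans inf_le_right) inf_le_right) himp_inf_le
    · change _ ≤ beq (rn a) (rn a)
      rw [beq_refl]; exact le_top
  · rw [le_himp_iff]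
    refine le_iSup_of_le a (le_inf ?_ ?_)
    · refine (inf_le_inf_right _ (iInf_le _ a)).trans ?_
      rw [bihimp]
      exact le_trans (le_inf (inf_le_left.trans inf_le_left) inf_le_right) himp_inf_le
    · change _ ≤ beq (rn a) (rn a)
      rw [beq_refl]; exact le_top

theorem mem_un_rn (hU : UltraStatement.{u}) {x : Rl B → B} (hx : NU x) (a : Rl B) :
    bmem (rn a) (un x) = x a := (hU B).1 x hx a

theorem mem_FJ (hU : UltraStatement.{u}) (J : Rl B → B) {x : Rl B → B} (hx : NU x) :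
    bmem (un x) (FJ J) = ⨅ a, (J a ⊓ x a)ᶜ := by
  rw [bmem_def]
  refine le_antisymm (iSup_le fun y => le_iInf fun a => ?_) ?_
  · change (⨅ a, (J a ⊓ y.1 a)ᶜ) ⊓ beq (un x) (un y.1) ≤ _
    rw [(hU B).2.1 x y.1 hx y.2]
    have h1 : (⨅ a, (J a ⊓ y.1 a)ᶜ) ⊓ (⨅ a, x a ⇔ y.1 a) ≤ (J a ⊓ y.1 a)ᶜ ⊓ (x a ⇔ y.1 a) :=
      inf_le_inf (iInf_le _ a) (iInf_le _ a)
    refine h1.trans ?_
    rw [le_compl_iff_disjoint_right, disjoint_iff_inf_le]
    have h2 : (J a ⊓ y.1 a)ᶜ ⊓ (x a ⇔ y.1 a) ⊓ (J a ⊓ x a) ≤ y.1 a := by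
      rw [bihimp]
      exact le_trans (le_inf (inf_le_left.trans (inf_le_right.trans inf_le_right))
        (inf_le_right.trans inf_le_right)) himp_inf_le
    have h3 : (J a ⊓ y.1 a)ᶜ ⊓ (x a ⇔ y.1 a) ⊓ (J a ⊓ x a) ≤ J a ⊓ y.1 a :=
      le_inf (inf_le_right.trans inf_le_left) h2
    exact (le_inf h3 (inf_le_left.trans inf_le_left)).trans (le_of_eq (inf_compl_self _))
  · refine le_iSup_of_le ⟨x, hx⟩ (le_inf le_rfl ?_)
    change _ ≤ beq (un x) (un x)
    rw [beq_refl]; exact le_top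

theorem FJ_sub (J : Rl B → B) : (VB B).sub (FJ J) (Star B) = ⊤ := by
  refine top_unique (le_sub_iff.2 fun x => ?_)
  refine le_trans le_top ?_
  exact (un_mem_Star x.2).ge

/-- Neighbourhoods. -/
theorem nbhd_eq (hU : UltraStatement.{u}) {φ : BName B → B} (h : Ext φ) (a : Rl B) :
    nbhd (VB B) (Star B) (rn a) φ = ⨅ x : {x : Rl B → B // NU x}, (x.1 a ⇨ φ (un x.1)) := by
  unfold nbhd
  simp only [VB_mem]
  have : (⨅ y, bmem y (Star B) ⊓ bmem (rn a) y ⇨ φ y) =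
      ⨅ y, bmem y (Star B) ⇨ (bmem (rn a) y ⇨ φ y) := by
    refine iInf_congr fun y => ?_
    rw [himp_himp]
  rw [this, iInf_Star ((ext_mem_right _).himp h)]
  exact iInf_congr fun x => by rw [mem_un_rn hU x.2]

theorem ext_nbhd (O : BName B) (φ : BName B → B) : Ext (fun a => nbhd (VB B) O a φ) := by
  unfold nbhd
  exact Ext.iInf fun y => (((Ext.const _).inf (ext_VBmem_left y)).himp (Ext.const _))

/-- Existence of neighbourhoods of `un x`. -/
theorem iSup_nbhd (hU : UltraStatement.{u}) {φ : BName B → B} (h : Ext φ) (x : Rl B → B) :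
    (⨆ a, bmem a (un x) ⊓ nbhd (VB B) (Star B) a φ) =
      ⨆ a : Rl B, x a ⊓ ⨅ y : {y : Rl B → B // NU y}, (y.1 a ⇨ φ (un y.1)) := by
  rw [iSup_mem (ext_nbhd (Star B) φ) (un x)]
  refine iSup_congr fun a => ?_
  change x a ⊓ nbhd (VB B) (Star B) (rn a) φ = _
  rw [nbhd_eq hU h]

theorem ext_iSup_nbhd (O : BName B) (φ : BName B → B) :
    Ext (fun x => ⨆ a, bmem a x ⊓ nbhd (VB B) O a φ) :=
  Ext.iSup fun a => (ext_mem_right a).inf (Ext.const _)

end Pool.Agent.Lib.MP_c5d73d_lc.F.H30
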